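import Pool.Agent.Helper38.EC.GoalsE1

/-!
# MP_ecc237_nt (S18871), packet XC: algebra of the coefficients
-/

set_option autoImplicit false

namespace Pool.Agent.Helper56.EC.E_XC

open EC237 EC237.DX

theorem c0 (F G : PowerSeries ℂ) : PowerSeries.coeff 0 (F * G) =
    PowerSeries.coeff 0 F * PowerSeries.coeff 0 G := by
  rw [PowerSeries.coeff_mul, Finset.Nat.sum_antidiagonal_eq_sum_range_succ_mk]
  simp [Finset.sum_range_succ]

theorem c1 (F G : PowerSeries ℂ) : PowerSeries.coeff 1 (F * G) =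
    PowerSeries.coeff 0 F * PowerSeries.coeff 1 G + PowerSeries.coeff 1 F *
      PowerSeries.coeff 0 G := by
  rw [PowerSeries.coeff_mul, Finset.Nat.sum_antidiagonal_eq_sum_range_succ_mk]
  simp [Finset.sum_range_succ]

theorem c2 (F G : PowerSeries ℂ) : PowerSeries.coeff 2 (F * G) =
    PowerSeries.coeff 0 F * PowerSeries.coeff 2 G + PowerSeries.coeff 1 F *
      PowerSeries.coeff 1 G + PowerSeries.coeff 2 F * PowerSeries.coeff 0 G := by
  rw [PowerSeries.coeff_mul, Finset.Nat.sum_antidiagonal_eq_sum_range_succ_mk]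
  simp [Finset.sum_range_succ]

theorem gser_zero_left (α : ℂ) : gser 0 α = 0 := by
  ext n
  simp [gser]

theorem gser_zero_right (a : ℂ) : gser a 0 = PowerSeries.C a := by
  ext n
  rw [gser, PowerSeries.coeff_mk, PowerSeries.coeff_C]
  rcases n with _ | n
  · simp
  · simp

theorem gser_neg_neg (a α : ℂ) : gser (-a) (-α) = -gser a α := by
  ext n
  rw [map_neg, gser, gser, PowerSeries.coeff_mk, PowerSeries.coeff_mk, neg_pow α, neg_pow a,
    pow_succ (-1 : ℂ) n]
  have h : ((-1 : ℂ)) ^ n * (-1) ^ n = 1 := by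
    rw [← mul_pow]; norm_num
  linear_combination (-(α ^ n * a ^ (n + 1))) * h

theorem gser_neg (a α : ℂ) : gser a (-α) = PowerSeries.rescale (-1 : ℂ) (gser a α) := by
  ext n
  rw [PowerSeries.coeff_rescale, gser, gser, PowerSeries.coeff_mk, PowerSeries.coeff_mk,
    neg_pow α]
  ring

theorem gser_c0 (a α : ℂ) : PowerSeries.coeff 0 (gser a α) = a := by
  simp [gser]

theorem gser_c1 (a α : ℂ) : PowerSeries.coeff 1 (gser a α) = α * a ^ 2 := by
  simp [gser]

theorem KA_neg (w : ℂ) (k : ℤ × ℤ) : KA w (-k) = -KA w k := by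
  simp [KA]; ring

theorem KB_neg (w : ℂ) (k : ℤ × ℤ) : KB w (-k) = -KB w k := by
  simp [KB]; ring

theorem KA_zero (w : ℂ) : KA w 0 = 0 := by simp [KA]

theorem KB_zero (w : ℂ) : KB w 0 = 0 := by simp [KB]

theorem ab_zero (w : ℂ) (γ : ℤ) (s : ℤ × ℤ) :
    PowerSeries.coeff 0 (As w (s, γ) * Bs w (s, γ)) = nI w s := by
  rw [c0, As, Bs, gser_c0, gser_c0, nI, mul_inv]

theorem thm : EC237.DX.G_XC := by
  intro w
  refine ⟨?_, ?_, ?_, ?_, ?_, ?_, ?_, ?_, ?_, ?_, ?_, ?_⟩
  · intro i α α' k k'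
    unfold xc
    rw [← map_neg]
    congr 1
    unfold XX
    ring
  · intro i α α' k k'
    unfold xc
    congr 1
    unfold XX As Bs
    simp only [KA_neg, KB_neg, inv_neg, Int.cast_neg, gser_neg_neg]
    ring
  · intro i α α' k k'
    unfold xc XX As Bs
    simp only [Int.cast_neg, gser_neg]
    rw [← map_mul, ← map_mul, ← map_sub, PowerSeries.coeff_rescale]
  · intro α α' k k'
    unfold xc XX As Bs
    simp only [map_sub, c0, gser_c0]
  · intro i k k' hi
    unfold xc XX As Bs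
    simp only [Int.cast_zero, gser_zero_right]
    rw [← map_mul, ← map_mul, ← map_sub, PowerSeries.coeff_C, if_neg (by omega)]
  · intro α α' k k'
    unfold xc XX As Bs
    simp only [map_sub, c1, gser_c0, gser_c1, Int.cast_zero]
    ring
  · intro α β k1 k2 k3 k4
    have hs : ((k1, α) : SV) + (k2, -α) = (k1 + k2, 0) := by
      rw [Prod.mk_add_mk, add_neg_cancel]
    have hab : As w (k1 + k2, 0) * Bs w (k1 + k2, 0) = PowerSeries.C (nI w (k1 + k2)) := by
      unfold As Bs
      simp only [Int.cast_zero, gser_zero_right]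
      rw [← map_mul, nI, mul_inv]
    unfold Qs
    rw [hs, hab, map_smul, smul_eq_mul, PowerSeries.coeff_mul_C, c2]
    unfold xc
    ring
  · intro k1 k2 k3 k4
    have hs : ((k2, -1) : SV) + (k3, 0) = (k2 + k3, -1) := by
      rw [Prod.mk_add_mk, add_zero]
    unfold Qs
    rw [hs, map_smul, smul_eq_mul, c2 _ (As w (k2 + k3, -1) * Bs w (k2 + k3, -1)),
      c2 (XX w (k2, -1) (k3, 0)) (XX w (k4, 0) (k1, 1)),
      c1 (XX w (k2, -1) (k3, 0)) (XX w (k4, 0) (k1, 1)),
      c0 (XX w (k2, -1) (k3, 0)) (XX w (k4, 0) (k1, 1)), ab_zero]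
    unfold xc ab
    ring
  · intro γ s
    exact ab_zero w γ s
  · intro j γ
    unfold ab As Bs
    simp only [KA_zero, KB_zero, inv_zero, gser_zero_left, mul_zero, map_zero]
  · rw [nI, KA_zero, zero_mul, inv_zero]
  · intro s
    rw [nI, nI, KA_neg, KB_neg, neg_mul_neg]

end Pool.Agent.Helper56.EC.E_XC
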