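import Pool.Agent.Helper38.EC.Goals

/-!
# Packet VPB of MP_ecc237_nt, Part I: the vertical primitive
-/

set_option autoImplicit false

open MeasureTheory Filter Topology Set Complex

namespace Pool.Agent.Helper56.EC.I_VPB

open EC237 EC237.PI

variable {f : ℂ → ℂ}

theorem horiz (h2 : ∀ x1 x2 y : ℝ, 0 ≤ x1 → x1 ≤ x2 → y ≤ 0 → (0 < x1 ∨ y < 0) →
    GV f (x2 + y * I) - GV f (x1 + y * I) = ∫ x in x1..x2, f (x + y * I)) {x1 x2 y : ℝ}
    (h1 : 0 ≤ x1) (h1' : 0 ≤ x2) (hy : y ≤ 0) (h : (0 < x1 ∧ 0 < x2) ∨ y < 0) :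
    GV f (x2 + y * I) - GV f (x1 + y * I) = ∫ x in x1..x2, f (x + y * I) := by
  rcases le_total x1 x2 with h3 | h3
  · exact h2 x1 x2 y h1 h3 hy (h.imp_left And.left)
  · rw [intervalIntegral.integral_symm, ← h2 x2 x1 y h1' h3 hy (h.imp_left And.right), neg_sub]

theorem vert (h3 : ∀ x y1 y2 : ℝ, 0 ≤ x → y1 ≤ y2 → y2 ≤ 0 → (0 < x ∨ y2 < 0) →
    GV f (x + y2 * I) - GV f (x + y1 * I) = I * ∫ y in y1..y2, f (x + y * I)) {x y1 y2 : ℝ}
    (hx : 0 ≤ x) (h1 : y1 ≤ 0) (h1' : y2 ≤ 0) (h : 0 < x ∨ (y1 < 0 ∧ y2 < 0)) :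
    GV f (x + y2 * I) - GV f (x + y1 * I) = I * ∫ y in y1..y2, f (x + y * I) := by
  rcases le_total y1 y2 with h4 | h4
  · exact h3 x y1 y2 hx h4 h1' (h.imp_right And.right)
  · rw [intervalIntegral.integral_symm, mul_neg, ← h3 x y2 y1 hx h4 h1 (h.imp_right And.left),
      neg_sub]

theorem isOpen_Qo : IsOpen Qo :=
  (isOpen_lt continuous_const continuous_re).inter (isOpen_lt continuous_im continuous_const)

theorem thm (vpa : G_VPA) : G_VPB := by
  intro f hf
  obtain ⟨-, hh, hv⟩ := vpa f hf
  refine ⟨fun t ht => ?_, fun t ht => ?_⟩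
  · obtain ⟨htre, htim, ht0⟩ := ht
    have hfc : ContinuousWithinAt f Qd t := hf.1 t ⟨htre, htim, ht0⟩
    obtain ⟨r, hr, hfr⟩ := Metric.continuousWithinAt_iff.1 hfc 1 one_pos
    -- points in the box are in `Qd` and near `t`
    set M : ℝ := ‖f t‖ + 1 with hM
    have hM0 : 0 ≤ M := by positivity
    have hbound : ∀ p ∈ Qd, dist p t < r → ‖f p‖ ≤ M := by
      intro p hp hd
      have h1 := hfr hp hd
      rw [dist_eq_norm] at h1
      have h2 : ‖f p‖ ≤ ‖f p - f t‖ + ‖f t‖ := by
        have := norm_add_le (f p - f t) (f t)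
        rwa [sub_add_cancel] at this
      linarith
    have hnorm : 0 < ‖t‖ := norm_pos_iff.2 ht0
    set ρ : ℝ := min (r / 2) (‖t‖ / 2) with hρ
    have hρ0 : 0 < ρ := by positivity
    have key : ∀ s ∈ Qd, ‖s - t‖ < ρ → ‖GV f s - GV f t‖ ≤ 3 * M * ‖s - t‖ := by
      intro s hs hst
      obtain ⟨hsre, hsim, hs0⟩ := hs
      have hre : |s.re - t.re| ≤ ‖s - t‖ := by
        rw [← Complex.sub_re]
        exact Complex.abs_re_le_norm _
      have him : |s.im - t.im| ≤ ‖s - t‖ := by
        rw [← Complex.sub_im]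
        exact Complex.abs_im_le_norm _
      set m : ℝ := min t.im s.im with hm
      have hm1 : m ≤ t.im := min_le_left _ _
      have hm2 : m ≤ s.im := min_le_right _ _
      have hmt : |m - t.im| ≤ ‖s - t‖ := by
        rcases min_choice t.im s.im with h | h
        · rw [hm, h, sub_self, abs_zero]
          exact norm_nonneg _
        · rw [hm, h]
          exact him
      have hms : |s.im - m| ≤ ‖s - t‖ := by
        rcases min_choice t.im s.im with h | h
        · rw [hm, h]
          exact him
        · rw [hm, h, sub_self, abs_zero]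
          exact norm_nonneg _
      -- points of the path
      have hpt : ∀ a b : ℝ, 0 ≤ a → b ≤ 0 → |a - t.re| ≤ ‖s - t‖ → |b - t.im| ≤ ‖s - t‖ →
          ‖f (a + b * I)‖ ≤ M := by
        intro a b ha hb h1 h2
        have h3 : ‖(a + b * I : ℂ) - t‖ < 2 * ρ := by
          have h4 : (a + b * I : ℂ) - t = ((a - t.re : ℝ) : ℂ) + ((b - t.im : ℝ) : ℂ) * I := by
            apply Complex.ext <;> simp
          rw [h4]
          refine (norm_add_le _ _).trans_lt ?_
          rw [norm_mul, Complex.norm_I, mul_one, Complex.norm_real, Complex.norm_real,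
            Real.norm_eq_abs, Real.norm_eq_abs]
          linarith
        apply hbound
        · refine ⟨by simpa using ha, by simpa using hb, fun h5 => ?_⟩
          rw [h5, zero_sub, norm_neg] at h3
          have : ρ ≤ ‖t‖ / 2 := min_le_right _ _
          linarith
        · rw [dist_eq_norm]
          have : ρ ≤ r / 2 := min_le_left _ _
          linarith
      have htcase : 0 < t.re ∨ t.im < 0 := by
        by_contra hcon
        rw [not_or, not_lt, not_lt] at hcon
        exact ht0 (Complex.ext (le_antisymm hcon.1 htre) (le_antisymm htim hcon.2))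
      have hscase : 0 < s.re ∨ s.im < 0 := by
        by_contra hcon
        rw [not_or, not_lt, not_lt] at hcon
        exact hs0 (Complex.ext (le_antisymm hcon.1 hsre) (le_antisymm hsim hcon.2))
      have e1 : GV f (t.re + m * I) - GV f (t.re + t.im * I) =
          I * ∫ y in t.im..m, f (t.re + y * I) :=
        vert hv htre htim (hm1.trans htim)
          (htcase.imp_right fun h => ⟨h, hm1.trans_lt h⟩)
      have e3 : GV f (s.re + s.im * I) - GV f (s.re + m * I) =
          I * ∫ y in m..s.im, f (s.re + y * I) :=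
        vert hv hsre (hm2.trans hsim) hsim
          (hscase.imp_right fun h => ⟨hm2.trans_lt h, h⟩)
      have e2 : GV f (s.re + m * I) - GV f (t.re + m * I) =
          ∫ x in t.re..s.re, f (x + m * I) := by
        apply horiz hh htre hsre (hm1.trans htim)
        by_cases hm0 : m < 0
        · exact Or.inr hm0
        · left
          rw [not_lt] at hm0
          exact ⟨htcase.resolve_right (not_lt.2 (hm0.trans hm1)),
            hscase.resolve_right (not_lt.2 (hm0.trans hm2))⟩
      rw [Complex.re_add_im] at e1 e3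
      have e : GV f s - GV f t = (GV f s - GV f (s.re + m * I)) +
          (GV f (s.re + m * I) - GV f (t.re + m * I)) +
          (GV f (t.re + m * I) - GV f t) := by ring
      have b1 : ‖I * ∫ y in t.im..m, f (t.re + y * I)‖ ≤ M * ‖s - t‖ := by
        rw [norm_mul, Complex.norm_I, one_mul]
        refine (intervalIntegral.norm_integral_le_of_norm_le_const (C := M) fun y hy => ?_).trans
          (mul_le_mul_of_nonneg_left hmt hM0)
        rw [uIoc_of_ge hm1] at hy
        refine hpt t.re y htre (hy.2.trans htim) (by rw [sub_self, abs_zero]; exact norm_nonneg _) ?_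
        refine le_trans ?_ hmt
        rw [abs_of_nonpos (by linarith [hy.2]), abs_of_nonpos (by linarith)]
        linarith [hy.1]
      have b3 : ‖I * ∫ y in m..s.im, f (s.re + y * I)‖ ≤ M * ‖s - t‖ := by
        rw [norm_mul, Complex.norm_I, one_mul]
        refine (intervalIntegral.norm_integral_le_of_norm_le_const (C := M) fun y hy => ?_).trans
          (mul_le_mul_of_nonneg_left hms hM0)
        rw [uIoc_of_le hm2] at hy
        refine hpt s.re y hsre (hy.2.trans hsim) hre ?_
        rw [abs_le] at hmt him ⊢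
        constructor
        · linarith [hy.1, hmt.1]
        · linarith [hy.2, him.2]
      have b2 : ‖∫ x in t.re..s.re, f (x + m * I)‖ ≤ M * ‖s - t‖ := by
        refine (intervalIntegral.norm_integral_le_of_norm_le_const (C := M) fun x hx => ?_).trans
          (mul_le_mul_of_nonneg_left hre hM0)
        have hx' := uIoc_subset_uIcc hx
        rw [mem_uIcc] at hx'
        refine hpt x m ?_ (hm1.trans htim) ?_ hmt
        · rcases hx' with h | h
          · exact htre.trans h.1
          · exact hsre.trans h.1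
        · rw [abs_le] at hre ⊢
          rcases hx' with h | h
          · constructor <;> linarith [h.1, h.2, hre.1, hre.2, norm_nonneg (s - t)]
          · constructor <;> linarith [h.1, h.2, hre.1, hre.2, norm_nonneg (s - t)]
      rw [e, e3, e2, e1]
      refine (norm_add₃_le).trans ?_
      linarith
    rw [Metric.continuousWithinAt_iff]
    intro ε hε
    refine ⟨min ρ (ε / (3 * M + 1)), by positivity, fun s hs hd => ?_⟩
    rw [dist_eq_norm] at hd ⊢
    have h1 : ‖s - t‖ < ρ := hd.trans_le (min_le_left _ _)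
    have h2 : ‖s - t‖ < ε / (3 * M + 1) := hd.trans_le (min_le_right _ _)
    have h3 : 0 < 3 * M + 1 := by positivity
    rw [lt_div_iff₀ h3] at h2
    refine (key s hs h1).trans_lt ?_
    nlinarith [norm_nonneg (s - t)]
  · obtain ⟨r, hr, hball⟩ := Metric.isOpen_iff.1 isOpen_Qo t ht
    have hd : DifferentiableOn ℂ f (Metric.ball t r) := hf.2.1.mono hball
    have h1 : HasDerivAt (fun w => wedgeIntegral t w f) (f t) t :=
      hd.isConservativeOn.hasDerivAt_wedgeIntegral hd.continuousOn (Metric.mem_ball_self hr)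
    have h2 : GV f =ᶠ[𝓝 t] fun w => GV f t + wedgeIntegral t w f := by
      filter_upwards [isOpen_Qo.mem_nhds ht] with w hw
      obtain ⟨hwre, hwim⟩ := hw
      obtain ⟨htre, htim⟩ := ht
      have e1 := horiz hh (x1 := t.re) (x2 := w.re) (y := t.im) htre.le hwre.le htim.le
        (Or.inr htim)
      have e2 := vert hv (x := w.re) (y1 := t.im) (y2 := w.im) hwre.le htim.le hwim.le
        (Or.inl hwre)
      rw [Complex.re_add_im] at e1 e2
      unfold wedgeIntegral
      rw [smul_eq_mul, ← e1, ← e2]
      ring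
    exact (h1.const_add (GV f t)).congr_of_eventuallyEq h2

end Pool.Agent.Helper56.EC.I_VPB
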